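import Pool.Agent.J4H80.PV.Pat2

set_option autoImplicit false

/-!
# Linear parity patterns of `p` in the classes modulo `2 ^ j`, with explicit constants (MP_ebc808_nt)

Let `M = 2 ^ j`, `K ≥ 1`, let `c_0, …, c_{K - 1}` be elements of `F_2`, not all zero, `κ` an element of
`F_2`, `A ≥ 0` and `ρ` a residue modulo `M`. Then `∑_{i < K} c_i p(n + i) = κ` in `F_2` for some
`n ≡ ρ (mod M)` with `A ≤ n ≤ 10 ^ 4 M ^ 4 (A + K + M)`. The starting files
`ShortIntervalsProgressions` and `DilatesAndProgressions` have `C (A + K)` with a constant `C` that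
depends on `M` in an unspecified way.

Consequences (not stated in Lean). (1) `j = 0`: the `N`-th linear complexity of the sequence `p(n)`
modulo 2 is at least `N / 10001 - 2`. (2) `A = K = M`, `ρ = 0`, `κ = 1`: every representation
`p(n) = a A_{d_0} ⋯ A_{d_l} b` modulo 2 for all `n ≤ x`, where `d_0, …, d_l` are the binary digits of
`n` from the lowest to the highest and `a, A_0, A_1, b` are a row, matrices and a column over `F_2`, has
a dimension greater than `c x ^ (1 / 5)` with an absolute constant `c > 0`; so has the number of states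
of every finite automaton that computes `p(n)` modulo 2 for all `n ≤ x` from the binary digits of `n`,
in either direction.

Method. Let `D = X ∏ (1 - X ^ n) ^ 24` modulo 2. (1) Zero estimate (`J4H80/ZE`): if `P(X, z) ≠ 0` has
degree `a` in `X` and `b` in `z` then the order of `P(X, D)` is at most `16 a b + a + b`. For an
irreducible `P` one takes `P_1 = Res_w (w ^ 4 + z w + z ^ 4, P(X ^ 3, w))`, of degrees `12 a`, `4 b`;
`P_1(X, D)` is divisible by `P(X ^ 3, D(X ^ 3))` by the modular equation, and the resultant of `P` and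
`P_1` has degree at most `16 a b`. If it vanished, there would be `x, z, w` in a field with
`P(x, z) = P(x ^ 3, w) = w ^ 4 + z w + z ^ 4 = 0`; comparing the degrees of `F_2(x, z, w)` over
`F_2(x)`, `F_2(x ^ 3)`, `F_2(z)`, `F_2(w)` this is impossible unless `P` is a polynomial in `X` or in
`z` alone. (2) The sections of `P = ∑ p(n) X ^ n` modulo `M = 4 ^ k` belong to the parts of
`D ^ ((M - 1) / 3)` modulo `8 M`, which lie in an extension of degree `M` of `F_2(D)` generated by
theta series (`J4H80/IG`, see `ParityOnResidueClasses`). If the pattern has no value `κ` for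
`A ≤ n < B`, this gives a nonzero polynomial in `X` over this extension with a zero of order at least
`8 B`; its norm is a polynomial in `X` and `D` of degrees `O(M (A + K + M))` and `O(M ^ 3)`, to which
the zero estimate applies.
-/

namespace Pool.Agent.Results.MP_ebc808_nt.ExplicitPatternsProgressions

private theorem zmod_ne : ∀ y κ : ZMod 2, y ≠ κ → y = κ + 1 := by decide

theorem result (j K A ρ : ℕ) (c : ℕ → ZMod 2) (hc : ∃ i < K, c i ≠ 0) (κ : ZMod 2) :
    ∃ n, A ≤ n ∧ n ≤ 10 ^ 4 * 16 ^ j * (A + K + 2 ^ j) ∧ n % 2 ^ j = ρ % 2 ^ j ∧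
      ∑ i ∈ Finset.range K, c i * (Fintype.card (Nat.Partition (n + i)) : ZMod 2) = κ := by
  classical
  by_contra hno
  push Not at hno
  obtain ⟨k, hk1, hk2⟩ : ∃ k, 2 ^ j ∣ 4 ^ k ∧ 4 ^ k ≤ 2 * 2 ^ j := by
    rcases Nat.even_or_odd' j with ⟨k, rfl | rfl⟩
    · refine ⟨k, ?_, ?_⟩
      · rw [Pool.Agent.J4H80.IG.four_two]
      · rw [Pool.Agent.J4H80.IG.four_two]; omega
    · refine ⟨k + 1, ?_, ?_⟩
      · rw [← Pool.Agent.J4H80.IG.four_two]
        exact pow_dvd_pow 2 (by omega)
      · rw [pow_succ 2, Pool.Agent.J4H80.IG.four_two, pow_succ]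
        omega
  set I := (Finset.range K).filter fun i => c i ≠ 0 with hI
  have hsum : ∀ n, ∑ i ∈ Finset.range K, c i * (Fintype.card (Nat.Partition (n + i)) : ZMod 2) =
      ∑ i ∈ I, (Fintype.card (Nat.Partition (n + i)) : ZMod 2) := by
    intro n
    rw [hI, Finset.sum_filter]
    refine Finset.sum_congr rfl fun i _ => ?_
    split_ifs with h
    · have : c i = 1 := by
        have h2 := ZMod.natCast_zmod_val (c i)
        have h3 := ZMod.val_lt (c i)
        have h4 : (c i).val ≠ 0 := fun h0 => h ((ZMod.val_eq_zero _).1 h0)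
        have h5 : (c i).val = 1 := by omega
        rw [← h2, h5, Nat.cast_one]
      rw [this, one_mul]
    · push Not at h
      rw [h, zero_mul]
  have hp : 0 < 2 ^ j := by positivity
  have h1 := Pool.Agent.J4H80.PV.bound_four k K ρ I (fun i hi => by
      rw [hI, Finset.mem_filter, Finset.mem_range] at hi
      exact hi.1) (by
      obtain ⟨i, hi, hci⟩ := hc
      exact ⟨i, by rw [hI, Finset.mem_filter, Finset.mem_range]; exact ⟨hi, hci⟩⟩) A
    (10 ^ 4 * 16 ^ j * (A + K + 2 ^ j) + 1) (κ + 1) (by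
      intro n hA hB hn
      rw [← hsum]
      have h2 : n % 2 ^ j = ρ % 2 ^ j := by
        rw [Pool.Agent.J4H80.IG.four_two] at hn
        rw [← Nat.mod_mod_of_dvd n hk1, hn, Nat.mod_mod_of_dvd ρ hk1]
      have h3 := hno n hA (by omega) h2
      exact zmod_ne _ _ h3)
  have h2 : (4 ^ k) ^ 4 ≤ 16 * 16 ^ j := by
    calc (4 ^ k) ^ 4 ≤ (2 * 2 ^ j) ^ 4 := Nat.pow_le_pow_left hk2 4
      _ = 16 * 16 ^ j := by
        have : (16 : ℕ) ^ j = (2 ^ j) ^ 4 := by
          rw [← pow_mul, mul_comm j 4, pow_mul]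
          norm_num
        rw [this]
        ring
  have h3 : A + K + 4 ^ k ≤ 2 * (A + K + 2 ^ j) := by omega
  have h4 : 304 * (4 ^ k) ^ 4 * (A + K + 4 ^ k) ≤ 304 * (16 * 16 ^ j) * (2 * (A + K + 2 ^ j)) :=
    Nat.mul_le_mul (Nat.mul_le_mul_left _ h2) h3
  have e1 : 304 * (16 * 16 ^ j) * (2 * (A + K + 2 ^ j)) = 9728 * (16 ^ j * (A + K + 2 ^ j)) := by ring
  have e2 : 10 ^ 4 * 16 ^ j * (A + K + 2 ^ j) = 10000 * (16 ^ j * (A + K + 2 ^ j)) := by ring
  rw [e2] at h1
  rw [e1] at h4
  omega

end Pool.Agent.Results.MP_ebc808_nt.ExplicitPatternsProgressions
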