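import Pool.Agent.J4H80.IG.Bnd3

set_option autoImplicit false

/-!
# Odd and even values of `p` in the residue classes modulo `2 ^ j`, uniformly in `j` (MP_ebc808_nt)

Let `M = 2 ^ j`. For all `j`, `x` and `t`, fewer than `t` odd values or fewer than `t` even values of
`p(n)` with `n ≤ x` occur in at most `2048 t ^ 2 M ^ 3 / (x + 1)` of the residue classes modulo `M`. So
every class modulo `M` contains at least `√(x / (2048 M ^ 3)) - 1` odd values and as many even values
up to `x`, and for every `ε > 0` all but `ε M` of the classes modulo `M` contain at least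
`√(ε x / 2048) / M - 1` odd values and as many even values up to `x`. With `t = 1`: both parities occur
in all classes modulo `M` up to `2048 M ^ 3`, and in all but `ε M` of them up to `2048 M ^ 2 / ε`.

Method. Let `D = X ∏ (1 - X ^ n) ^ 24` modulo 2 and `M = 4 ^ k`, `m = (M - 1) / 3`. As
`D ^ m = X ^ m P(X) ^ 8 E(X) ^ (8 M)`, `P = ∑ p(n) X ^ n`, `E = 1 / P`, the parts of `D ^ m` with
exponents in the classes modulo `8 M` belong to the sections of `P` modulo `M`. The theta series with
odd characteristics, the sums of `X ^ (z ^ 2)` over the odd classes of `z` modulo `4 M`, generate an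
extension of degree `M` of `F_2(D)` (an Igusa tower in characteristic 2; file `Tower3`), whose group
is the group of the squares `(1 + 4 t) ^ 2` modulo `8 M`, and the parts of `D ^ m` in the classes
`m (1 + 4 t) ^ 2` are conjugate. All classes that belong to `P` are of this form since `m` is odd. The
product of the conjugates is a polynomial in `D` of bounded degree (file `Wt`), so the sum of the
orders at `X = 0` of the conjugates of a nonzero function is bounded (file `Valence2`). For the
classes without odd value the order is at least `8 (x + 1)`. If the class `r` modulo `M` has no even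
value up to `x`, then in the level `4 M` the parts `C_i` in the classes `r + i M` satisfy
`C_0 C_3 = C_1 C_2` up to high order, while the corresponding element of the tower is not zero. For
`t > 1` a class with fewer than `t` odd values splits into classes modulo `2 ^ i M`, `2 ^ i ≥ 2 t`,
more than half of which have no odd value.
-/

namespace Pool.Agent.Results.MP_ebc808_nt.ParityOnResidueClasses

open Pool.Agent.J4H80.IG

theorem result (j x t : ℕ) :
    ((Finset.range (2 ^ j)).filter fun r =>
      ((Finset.range (x + 1)).filter fun n =>
        n % 2 ^ j = r ∧ Odd (Fintype.card (Nat.Partition n))).card < t ∨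
      ((Finset.range (x + 1)).filter fun n =>
        n % 2 ^ j = r ∧ Even (Fintype.card (Nat.Partition n))).card < t).card * (x + 1) ≤
      2 ^ 11 * t ^ 2 * 8 ^ j := by
  rcases Nat.eq_zero_or_pos t with rfl | ht
  · simp
  have h1 := Fw_bound (fun n => Even (Fintype.card (Nat.Partition n))) 8
    (fun j x => odd_bound j x) x j t ht
  have h2 := Fw_bound (fun n => ¬ Even (Fintype.card (Nat.Partition n))) 512
    (fun j x => even_bound j x) x j t ht
  have h3 : ((Finset.range (2 ^ j)).filter fun r =>
      ((Finset.range (x + 1)).filter fun n =>
        n % 2 ^ j = r ∧ Odd (Fintype.card (Nat.Partition n))).card < t ∨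
      ((Finset.range (x + 1)).filter fun n =>
        n % 2 ^ j = r ∧ Even (Fintype.card (Nat.Partition n))).card < t) ⊆
      Fw (fun n => Even (Fintype.card (Nat.Partition n))) x j t ∪
      Fw (fun n => ¬ Even (Fintype.card (Nat.Partition n))) x j t := by
    intro r hr
    rw [Finset.mem_filter, Finset.mem_range] at hr
    rw [Finset.mem_union, mem_Fw, mem_Fw]
    obtain ⟨hr1, hr2 | hr2⟩ := hr
    · refine Or.inl ⟨hr1, lt_of_le_of_lt (le_of_eq ?_) hr2⟩
      congr 1
      ext n
      simp only [Finset.mem_filter, Nat.not_even_iff_odd]
    · refine Or.inr ⟨hr1, lt_of_le_of_lt (le_of_eq ?_) hr2⟩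
      congr 1
      ext n
      simp only [Finset.mem_filter, not_not]
  have h4 := (Finset.card_le_card h3).trans (Finset.card_union_le _ _)
  have h5 := Nat.mul_le_mul_right (x + 1) h4
  rw [add_mul] at h5
  have e1 : 32 * 8 * t ^ 2 * 8 ^ j = 256 * (t ^ 2 * 8 ^ j) := by ring
  have e2 : 32 * 512 * t ^ 2 * 8 ^ j = 16384 * (t ^ 2 * 8 ^ j) := by ring
  have e3 : 2 ^ 11 * t ^ 2 * 8 ^ j = 2048 * (t ^ 2 * 8 ^ j) := by ring
  rw [e1] at h1
  rw [e2] at h2
  rw [e3]
  omega

end Pool.Agent.Results.MP_ebc808_nt.ParityOnResidueClasses
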