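import Pool.Agent.J4H80.IG.Pairs2

set_option autoImplicit false

/-!
# The sequences `p(M n + r)` modulo 2, `r < M = 2 ^ j`, are pairwise different, with bounds (MP_ebc808_nt)

Let `M = 2 ^ j` and `0 ≤ r < r' < M`. There is an `n ≥ 1` with `M n + r' ≤ 228 M ^ 3` such that exactly
one of `p(M n + r)`, `p(M n + r')` is odd.

Consequence (not stated in Lean): every finite automaton which reads the binary digits of `n` from the
lowest to the highest and computes the parity of `p(n)` for all `n ≤ x` has more than `c x ^ (1 / 3)`
states, `c > 0` an absolute constant. (If there are fewer than `M` states, then two residues `r < r'`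
modulo `M` lead to the same state, and the parities of `p(M n + r)` and `p(M n + r')` agree for all
`n ≥ 1` with `M n + r' ≤ x`.)

Method. See `ParityOnResidueClasses` for the tower of theta series over `F_2(D)`, `D = Δ` modulo 2, and
the valence inequality. Let `M = 4 ^ k`. In the level `4 M` let `C_s` be the part of `D ^ m`,
`m = (4 M - 1) / 3`, in the class `s` modulo `32 M`; those with `s ≡ m (mod 8)` belong to the sections of
`∑ p(n) X ^ n` modulo `4 M`. If `p(M n + r)` and `p(M n + r')` have equal parities up to `x`, then the
pairs `(C_s, C_{s + 8 M})` for `s = 8 (r + M) + m` and for `s' = 8 (r' + M) + m` are proportional up to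
high order: the determinant has order at least `8 (x + 1)`. It is an element of the tower of bounded
weight, and the valence inequality bounds `x` unless it is zero. If it were zero, the pairs for `s a`
and `s' a` would be proportional for all squares `a = (1 + 4 t) ^ 2` by conjugation; as `s' / s`
generates a group which contains `1 + 16 M`, the pairs for `s` and `s + 16 M` would be proportional,
`C_s C_{s + 24 M} = C_{s + 8 M} C_{s + 16 M}` for all `s ≡ m (mod 8)`, and adding this for `s` and
`s + 8 M` gives `(C_s + C_{s + 16 M}) (C_{s + 8 M} + C_{s + 24 M}) = 0`, so one of the `C_s` would be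
zero, but none is.
-/

namespace Pool.Agent.Results.MP_ebc808_nt.SectionsPairwiseDistinct

open Pool.Agent.J4H80.IG

theorem result (j r r' : ℕ) (hr : r < r') (hr' : r' < 2 ^ j) :
    ∃ n, 1 ≤ n ∧ 2 ^ j * n + r' ≤ 228 * 8 ^ j ∧
      Fintype.card (Nat.Partition (2 ^ j * n + r)) % 2 ≠
        Fintype.card (Nat.Partition (2 ^ j * n + r')) % 2 := by
  by_contra hno
  push Not at hno
  have hp : 0 < 8 ^ j := by positivity
  rcases Nat.even_or_odd' j with ⟨k, rfl | rfl⟩
  · have e : (8 : ℕ) ^ (2 * k) = 64 ^ k := by rw [pow_mul]; norm_num
    rw [four_two] at hr'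
    have h := pair_bound k r r' (x := 228 * 8 ^ (2 * k)) hr hr' (by
      intro n hn hx
      have := hno n hn (by rw [four_two]; exact hx)
      rwa [four_two] at this)
    rw [e] at h hp
    omega
  · have e : (64 : ℕ) ^ (k + 1) = 8 * 8 ^ (2 * k + 1) := by
      have : (64 : ℕ) = 8 ^ 2 := by norm_num
      rw [this, ← pow_mul, ← pow_succ', mul_add]
    have e4 : (4 : ℕ) ^ (k + 1) = 2 * 2 ^ (2 * k + 1) := by
      rw [← four_two, ← pow_succ', mul_add]
    have h := pair_bound (k + 1) r r' (x := 228 * 8 ^ (2 * k + 1)) hr (by rw [e4]; omega) (by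
      intro n hn hx
      rw [e4] at hx ⊢
      have e5 : 2 * 2 ^ (2 * k + 1) * n = 2 ^ (2 * k + 1) * (2 * n) := by ring
      rw [e5] at hx ⊢
      exact hno (2 * n) (by omega) hx)
    rw [e] at h
    omega

end Pool.Agent.Results.MP_ebc808_nt.SectionsPairwiseDistinct
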