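import Mathlib
import Pool.Agent.J4H40.PB.N
set_option autoImplicit false
/-!
# The Parkin-Shanks statement after the deletion of a very sparse set of parts (MP_ebc808_nt)

For a set `B` of positive integers let `p_B(n)` be the number of the partitions of `n` none of whose parts is in
`B`; so `p_∅ = p`. Let `N₀` be a natural number and `ω` any function which tends to infinity, however slowly.
There is a set `B` of integers `> N₀` with at most `ω(X) log X` elements up to `X` for all large `X`, such that
for all `s` every word `w ∈ F_2^s` is equal to `(p_B(n), ..., p_B(n + s - 1))` modulo 2 for a set of `n` of natural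
density exactly `1 / 2^s`: the sequence of the parities of `p_B` is normal in base 2. For `s = 1`: `p_B(n)` is even
for a set of density `1 / 2`, and odd for a set of density `1 / 2`. As `B` has no element `≤ N₀`, one has
`p_B(n) = p(n)` for `n ≤ N₀`.

Method. Let `M = 2^k` and let the elements of `B` up to `M` be chosen. If `b_1, ..., b_m` are elements of
`(M, 2M]`, then for `n ≤ 2M` modulo 2 `p_B(n)` becomes `p_B(n) + ∑_i p_B(n - b_i)`, with the old `B` on the
right; only values `p_B(j)`, `j < M`, which do not change any more, occur in the last sum. The average of the
square of a sum of signs of patterns over an interval in the block, over all `m`-tuples, is a sum over pairs `n, n'`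
of `m`-th powers of sums over one `b`, which are small as soon as `n' - n` is at least a small multiple of `M` and the
patterns have positive density up to `n' - n`; this is known from the blocks before. Thus a bounded number
`m = m(δ)` of deleted parts in each block is enough for correlations at most `δ M`. To pass from the patterns of length
`s` to those of length `s + 1` one needs a positive density of the new patterns in which the sum of the parities is
odd. It grows by itself: the variance of the number of such places in the next blocks, over all `m`-tuples, is small,
so this number is multiplied by at least `16` in two blocks until it is at least a constant times `M / m`.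
-/
namespace Pool.Agent.Results.MP_ebc808_nt.SparselyDeletedParts
open Filter Topology

/-- The number of the partitions of `n` none of whose parts is in `B`. -/
noncomputable def partsOutside (B : Set ℕ) (n : ℕ) : ℕ :=
  Set.ncard {π : Nat.Partition n | ∀ i ∈ π.parts, i ∉ B}

/-- `S` has natural density `d`: the proportion of the `n < X` which are in `S` tends to `d`. -/
def HasDensity (S : Set ℕ) (d : ℝ) : Prop :=
  Tendsto (fun X : ℕ => ((S ∩ Set.Iio X).ncard : ℝ) / X) atTop (𝓝 d)

/-- For all `N₀` and every function `ω` which tends to infinity there is a set `B` of integers `> N₀` such that
(1) `B` has at most `ω(X) log X` elements `≤ X` for all large `X`;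
(2) for all `s` and every word `w` the parities of the numbers of partitions of `n, n + 1, ..., n + s - 1` without
parts in `B` are `w 0, ..., w (s - 1)` for a set of `n` of natural density exactly `1 / 2 ^ s`. -/
theorem result (N₀ : ℕ) (ω : ℕ → ℝ) (hω : Tendsto ω atTop atTop) :
    ∃ B : Set ℕ, (∀ b ∈ B, N₀ < b) ∧
      (∀ᶠ X : ℕ in atTop, ((B ∩ Set.Iic X).ncard : ℝ) ≤ ω X * Real.log X) ∧
      ∀ (s : ℕ) (w : ℕ → ZMod 2),
        HasDensity {n : ℕ | ∀ i < s, (partsOutside B (n + i) : ZMod 2) = w i} (1 / 2 ^ s) :=
  Pool.Agent.J4H40.PB.main2 N₀ ω hω

end Pool.Agent.Results.MP_ebc808_nt.SparselyDeletedParts
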